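import Mathlib

/-!
# The action of tuples of matrices on tensors
-/

open scoped BigOperators

namespace Pool.Agent.DRH

section

variable {r n : ℕ} {R S : Type} [CommRing R] [CommRing S]
  {ι κ τ : Fin r → Type} [∀ l, Fintype (ι l)]

/-- The tensor `α` contracted with the matrices `N`. -/
def tact (i : Fin n → Fin r) (N : ∀ l, Matrix (ι l) (κ l) R) (α : (∀ s, ι (i s)) → R)
    (J : ∀ s, κ (i s)) : R := ∑ I, α I * ∏ s, N (i s) (I s) (J s)

lemma tact_tact [∀ l, Fintype (κ l)] (i : Fin n → Fin r) (N : ∀ l, Matrix (ι l) (κ l) R)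
    (N' : ∀ l, Matrix (κ l) (τ l) R) (α : (∀ s, ι (i s)) → R) :
    tact i N' (tact i N α) = tact i (fun l => N l * N' l) α := by
  classical
  funext K
  unfold tact
  simp_rw [Finset.sum_mul]
  rw [Finset.sum_comm]
  refine Finset.sum_congr rfl fun I _ => ?_
  simp_rw [mul_assoc, ← Finset.mul_sum, ← Finset.prod_mul_distrib, Matrix.mul_apply]
  congr 1
  rw [Finset.prod_univ_sum, Fintype.piFinset_univ]

lemma tact_smul (i : Fin n → Fin r) (c : Fin r → R) (N : ∀ l, Matrix (ι l) (κ l) R)
    (α : (∀ s, ι (i s)) → R) :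
    tact i (fun l => c l • N l) α = (∏ s, c (i s)) • tact i N α := by
  funext K
  unfold tact
  rw [Pi.smul_apply, smul_eq_mul, Finset.mul_sum]
  refine Finset.sum_congr rfl fun I _ => ?_
  simp only [Matrix.smul_apply, smul_eq_mul, Finset.prod_mul_distrib]
  ring

lemma tact_smul_right (i : Fin n → Fin r) (c : R) (N : ∀ l, Matrix (ι l) (κ l) R)
    (α : (∀ s, ι (i s)) → R) : tact i N (c • α) = c • tact i N α := by
  funext K
  unfold tact
  rw [Pi.smul_apply, smul_eq_mul, Finset.mul_sum]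
  refine Finset.sum_congr rfl fun I _ => ?_
  simp only [Pi.smul_apply, smul_eq_mul]
  ring

lemma tact_diag [∀ l, DecidableEq (ι l)] (i : Fin n → Fin r) (d : ∀ l, ι l → R)
    (α : (∀ s, ι (i s)) → R) (I : ∀ s, ι (i s)) :
    tact i (fun l => Matrix.diagonal (d l)) α I = α I * ∏ s, d (i s) (I s) := by
  classical
  unfold tact
  rw [Finset.sum_eq_single I]
  · simp
  · intro J _ hJ
    obtain ⟨s, hs⟩ := Function.ne_iff.1 hJ
    rw [Finset.prod_eq_zero (Finset.mem_univ s), mul_zero]
    exact Matrix.diagonal_apply_ne _ hs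
  · intro h
    exact absurd (Finset.mem_univ _) h

lemma tact_one [∀ l, DecidableEq (ι l)] (i : Fin n → Fin r) (α : (∀ s, ι (i s)) → R) :
    tact i (fun _ => 1) α = α := by
  funext I
  have h := tact_diag i (fun l (_ : ι l) => (1 : R)) α I
  simp only [Finset.prod_const_one, mul_one] at h
  exact h

lemma tact_adj [∀ l, DecidableEq (ι l)] (i : Fin n → Fin r) (N : ∀ l, Matrix (ι l) (ι l) R)
    (α : (∀ s, ι (i s)) → R) :
    tact i (fun l => (N l).adjugate) (tact i N α) = (∏ s, (N (i s)).det) • α := by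
  rw [tact_tact]
  have h : (fun l => N l * (N l).adjugate) = fun l => (N l).det • (1 : Matrix (ι l) (ι l) R) := by
    funext l
    exact Matrix.mul_adjugate _
  rw [h, tact_smul, tact_one]

lemma map_tact (φ : R →+* S) (i : Fin n → Fin r) (N : ∀ l, Matrix (ι l) (κ l) R)
    (α : (∀ s, ι (i s)) → R) (J : ∀ s, κ (i s)) :
    φ (tact i N α J) = tact i (fun l => (N l).map φ) (fun I => φ (α I)) J := by
  unfold tact
  rw [map_sum]
  refine Finset.sum_congr rfl fun I _ => ?_
  rw [map_mul, map_prod]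
  rfl

end

end Pool.Agent.DRH
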