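import Pool.Agent.GPH.Sealed

/-!
# De Rham–Betti classes on tensor products of the first cohomology of hyperelliptic curves

`r` curves `C_l : y ^ 2 = f_l x`, `f_l` monic of degree `2 g_l + 1` with integral coefficients
`c l`. The space is `H¹(C_{i_1}) ⊗ ⋯ ⊗ H¹(C_{i_n}) (k)`. Its de Rham realization has the basis of
the tensor products of the differentials `num κ dx / y`, its Betti realization consists of the
rational functions of `n` closed paths, multilinear on homology.
-/

open scoped BigOperators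
open Pool.Agent.HGP (Ix Simil)
open Pool.Agent.GPH (CPath pol perMat num)

namespace Pool.Agent.DRH

noncomputable section

/-- `a` is a root of a nonzero integral polynomial of degree at most `D` with coefficients of
absolute value at most `B`. -/
def AlgSmall (D B : ℕ) (a : ℂ) : Prop :=
  ∃ p : Polynomial ℤ, p ≠ 0 ∧ p.natDegree ≤ D ∧ (∀ j, (p.coeff j).natAbs ≤ B) ∧
    Polynomial.aeval a p = 0

/-- The polynomial `f_l` of the curve number `l`. -/
def crv {r : ℕ} {g : Fin r → ℕ} (c : ∀ l, Fin (2 * g l + 1) → ℤ) (l : Fin r) : Polynomial ℂ :=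
  pol (2 * g l + 1) (fun j => (c l j : ℂ))

/-- `α = (α_I)` are the coordinates of a de Rham–Betti class of complexity `(D, B)` on
`H¹(C_{i_1}) ⊗ ⋯ ⊗ H¹(C_{i_n}) (k)`: the `α_I` are algebraic of degree at most `D` and height at
most `B`, and on some basis of the rational homology of each curve which consists of `2 g_l`
closed paths with periods at most `B` in absolute value, the class takes values `(2 π i) ^ k b`
with `b` rational, numerator and denominator at most `B`. -/
def IsDRB {r : ℕ} {g : Fin r → ℕ} (c : ∀ l, Fin (2 * g l + 1) → ℤ) (D B n : ℕ) (k : ℤ)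
    (i : Fin n → Fin r) (α : (∀ s, Ix (g (i s))) → ℂ) : Prop :=
  (∀ I, AlgSmall D B (α I)) ∧
  ∃ γ : ∀ l, Fin (2 * g l) → CPath (crv c l),
    (∀ l j κ, ‖(γ l j).per (num (g l) (crv c l) κ)‖ ≤ B) ∧
    (∀ l, LinearIndependent ℂ (fun κ => perMat (g l) (γ l) κ)) ∧
    ∀ J : (∀ s, Fin (2 * g (i s))), ∃ b : ℚ, b.num.natAbs ≤ B ∧ b.den ≤ B ∧
      ∑ I, α I * ∏ s, perMat (g (i s)) (γ (i s)) (I s) (J s) =
        (2 * Real.pi * Complex.I) ^ k * (b : ℂ)

/-- The class is invariant under all tuples of symplectic similitudes with a common multiplier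
(acting on the Tate twist by the multiplier), and it is of Hodge type `(0, 0)`. -/
def IsHodge {r : ℕ} {g : Fin r → ℕ} (n : ℕ) (k : ℤ) (i : Fin n → Fin r)
    (α : (∀ s, Ix (g (i s))) → ℂ) : Prop :=
  (∀ (mu : ℂ) (h : ∀ l, Matrix (Ix (g l)) (Ix (g l)) ℂ), mu ≠ 0 → (∀ l, Simil mu (h l)) →
    ∀ I', ∑ I, α I * ∏ s, h (i s) (I s) (I' s) = mu ^ k * α I') ∧
  ∀ I, α I ≠ 0 → (n : ℤ) = 2 * k ∧
    (((Finset.univ.filter (fun s => (I s).isLeft)).card : ℕ) : ℤ) = k

/-- Some de Rham–Betti class of complexity `(D, B)` on some tensor product of at most `D`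
factors, twisted by some `k` with `|k| ≤ D`, is not a Hodge class. -/
def BadDRB {r : ℕ} {g : Fin r → ℕ} (D B : ℕ) (c : ∀ l, Fin (2 * g l + 1) → ℤ) : Prop :=
  ∃ (n : ℕ) (k : ℤ) (i : Fin n → Fin r) (α : (∀ s, Ix (g (i s))) → ℂ),
    n ≤ D ∧ |k| ≤ D ∧ IsDRB c D B n k i α ∧ ¬ IsHodge n k i α

end

end Pool.Agent.DRH
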