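import Pool.Agent.DRH.Act
import Pool.Agent.DRH.Sealed
import Pool.Agent.HGP.GENB
import Pool.Agent.HGP.PATH

/-!
# Tensors with finitely many values on the group of symplectic similitudes are invariant
-/

open scoped BigOperators

namespace Pool.Agent.DRH

open Pool.Agent.HGP (Ix Simil tv)

noncomputable section

variable {r n : ℕ} {g : Fin r → ℕ}

/-- A polynomial function with values in the roots of a polynomial is constant. -/
lemma poly_const (G : Polynomial ℂ) (P : Polynomial ℤ) (hP : P ≠ 0)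
    (h : ∀ s, Polynomial.aeval (G.eval s) P = 0) (s : ℂ) : G.eval s = G.eval 0 := by
  have hP' : P.map (algebraMap ℤ ℂ) ≠ 0 := by
    rw [Ne, Polynomial.map_eq_zero_iff (by simpa using Int.cast_injective)]
    exact hP
  have h1 : (P.map (algebraMap ℤ ℂ)).comp G = 0 := by
    apply Polynomial.funext
    intro s
    rw [Polynomial.eval_comp, Polynomial.eval_zero, Polynomial.eval_map_algebraMap]
    exact h s
  rcases Polynomial.comp_eq_zero_iff.1 h1 with h2 | ⟨-, h2⟩
  · exact absurd h2 hP'
  · rw [h2]; simp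

/-- The stabilizer. -/
def stab (i : Fin n → Fin r) (α : (∀ s, Ix (g (i s))) → ℂ) :
    Submonoid (∀ l, Matrix (Ix (g l)) (Ix (g l)) ℂ) where
  carrier := {h | tact i h α = α}
  one_mem' := by
    rw [Set.mem_ofPred_eq]
    exact tact_one (ι := fun l => Ix (g l)) i α
  mul_mem' := by
    intro a b ha hb
    rw [Set.mem_ofPred_eq] at ha hb ⊢
    have h := tact_tact (ι := fun l => Ix (g l)) (κ := fun l => Ix (g l))
      (τ := fun l => Ix (g l)) i a b α
    rw [ha, hb] at h
    exact h.symm

lemma mem_stab {i : Fin n → Fin r} {α : (∀ s, Ix (g (i s))) → ℂ}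
    {h : ∀ l, Matrix (Ix (g l)) (Ix (g l)) ℂ} : h ∈ stab i α ↔ tact i h α = α := by
  unfold stab
  rw [← SetLike.mem_coe]
  exact Iff.of_eq (Set.mem_ofPred_eq ..)

/-- The hypothesis: finitely many values on the group of similitudes. -/
def FinVal (k : ℤ) (i : Fin n → Fin r) (α : (∀ s, Ix (g (i s))) → ℂ) : Prop :=
  ∀ I', ∃ P : Polynomial ℤ, P ≠ 0 ∧ ∀ (mu : ℂ) (h : ∀ l, Matrix (Ix (g l)) (Ix (g l)) ℂ),
    mu ≠ 0 → (∀ l, Simil mu (h l)) →
      Polynomial.aeval (mu ^ k * tact i (fun l => (h l)⁻¹) α I') P = 0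

lemma simil_one (g : ℕ) : Simil 1 (1 : Matrix (Ix g) (Ix g) ℂ) := by
  unfold Simil
  simp

lemma tv_inv {g : ℕ} (d : Ix g → ℂ) (c : ℂ) : (tv d (-c))⁻¹ = tv d c := by
  apply Matrix.inv_eq_right_inv
  exact HGP.GENB_.tv_mul_neg d c

lemma tv_mem_stab {k : ℤ} {i : Fin n → Fin r} {α : (∀ s, Ix (g (i s))) → ℂ}
    (hF : FinVal k i α) (l0 : Fin r) (d : Ix (g l0) → ℂ) (c : ℂ) :
    Pi.mulSingle l0 (tv d c) ∈ stab i α := by
  rw [mem_stab]
  funext I'
  obtain ⟨P, hP, h⟩ := hF I'
  set E : Matrix (Ix (g l0)) (Ix (g l0)) ℂ :=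
    Matrix.vecMulVec d ((Matrix.J (Fin (g l0)) ℂ).mulVec d) with hE
  set N : ∀ l, Matrix (Ix (g l)) (Ix (g l)) (Polynomial ℂ) :=
    Pi.mulSingle l0 (1 + (Polynomial.X : Polynomial ℂ) • E.map (fun z => Polynomial.C z)) with hN
  have hev : ∀ (s : ℂ) (l : Fin r), (N l).map (Polynomial.evalRingHom s) =
      (Pi.mulSingle l0 (tv d s) : ∀ l, Matrix (Ix (g l)) (Ix (g l)) ℂ) l := by
    intro s l
    by_cases hl : l = l0
    · subst hl
      rw [hN, Pi.mulSingle_eq_same, Pi.mulSingle_eq_same]
      unfold tv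
      ext a b
      simp only [Matrix.map_apply, Matrix.add_apply, Matrix.smul_apply, smul_eq_mul,
        Polynomial.coe_evalRingHom, Polynomial.eval_add, Polynomial.eval_mul, Polynomial.eval_X,
        Polynomial.eval_C, hE]
      congr 1
      by_cases hab : a = b
      · subst hab; simp
      · rw [Matrix.one_apply_ne hab, Matrix.one_apply_ne hab]; simp
    · rw [hN, Pi.mulSingle_eq_of_ne hl, Pi.mulSingle_eq_of_ne hl]
      ext a b
      simp only [Matrix.map_apply, Polynomial.coe_evalRingHom]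
      by_cases hab : a = b
      · subst hab; simp
      · rw [Matrix.one_apply_ne hab, Matrix.one_apply_ne hab]; simp
  set G : Polynomial ℂ := tact i N (fun I => Polynomial.C (α I)) I' with hG
  have hGe : ∀ s, G.eval s = tact i
      (Pi.mulSingle l0 (tv d s) : ∀ l, Matrix (Ix (g l)) (Ix (g l)) ℂ) α I' := by
    intro s
    have h1 := map_tact (Polynomial.evalRingHom s) i N (fun I => Polynomial.C (α I)) I'
    rw [Polynomial.coe_evalRingHom, ← hG] at h1
    rw [h1]
    congr 1
    · funext l; exact hev s l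
    · funext I; simp
  have h2 := poly_const G P hP (fun s => by
    rw [hGe]
    have h3 := h 1 (Pi.mulSingle l0 (tv d (-s))) one_ne_zero (fun l => by
      by_cases hl : l = l0
      · subst hl
        rw [Pi.mulSingle_eq_same]
        exact HGP.PATH_.simil_tv _ _
      · rw [Pi.mulSingle_eq_of_ne hl]
        exact simil_one _)
    rw [one_zpow, one_mul] at h3
    have h5 : (fun l => ((Pi.mulSingle l0 (tv d (-s)) :
        ∀ l, Matrix (Ix (g l)) (Ix (g l)) ℂ) l)⁻¹) = Pi.mulSingle l0 (tv d s) := by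
      funext l
      by_cases hl : l = l0
      · subst hl
        rw [Pi.mulSingle_eq_same, Pi.mulSingle_eq_same, tv_inv]
      · rw [Pi.mulSingle_eq_of_ne hl, Pi.mulSingle_eq_of_ne hl, inv_one]
    rw [h5] at h3
    exact h3) c
  rw [hGe, hGe] at h2
  rw [h2]
  have h4 : tv d 0 = 1 := by unfold tv; rw [zero_smul, add_zero]
  rw [h4, Pi.mulSingle_one]
  exact congrFun (tact_one (ι := fun l => Ix (g l)) i α) I'

/-- Invariance under the symplectic groups. -/
lemma sp_mem_stab {k : ℤ} {i : Fin n → Fin r} {α : (∀ s, Ix (g (i s))) → ℂ}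
    (hF : FinVal k i α) (h : ∀ l, Matrix (Ix (g l)) (Ix (g l)) ℂ) (hh : ∀ l, Simil 1 (h l)) :
    h ∈ stab i α := by
  have h1 : ∀ l0, Pi.mulSingle l0 (h l0) ∈ stab i α := by
    intro l0
    have h2 := HGP.genb_proof (g l0) (h l0) (hh l0)
    have h3 : Submonoid.closure {N : Matrix (Ix (g l0)) (Ix (g l0)) ℂ |
        ∃ (v : Ix (g l0) → ℂ) (c : ℂ), N = tv v c} ≤
        (stab i α).comap (MonoidHom.mulSingle (fun l => Matrix (Ix (g l)) (Ix (g l)) ℂ) l0) := by
      rw [Submonoid.closure_le]
      rintro N ⟨v, c, rfl⟩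
      exact tv_mem_stab hF l0 v c
    exact h3 h2
  have h4 : ∀ s : Finset (Fin r), (fun l => if l ∈ s then h l else 1) ∈ stab i α := by
    intro s
    induction s using Finset.induction_on with
    | empty =>
      have := (stab i α).one_mem
      simpa [Pi.one_def] using this
    | insert a s ha ih =>
      have h5 : (fun l => if l ∈ insert a s then h l else 1) =
          Pi.mulSingle a (h a) * (fun l => if l ∈ s then h l else 1) := by
        funext l
        rw [Pi.mul_apply]
        by_cases hl : l = a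
        · subst hl
          rw [Pi.mulSingle_eq_same, if_pos (Finset.mem_insert_self _ _), if_neg ha, mul_one]
        · rw [Pi.mulSingle_eq_of_ne hl, one_mul]
          simp [Finset.mem_insert, hl]
      rw [h5]
      exact (stab i α).mul_mem (h1 a) ih
  simpa using h4 Finset.univ

lemma simil_smul {g : ℕ} {lam : ℂ} {M : Matrix (Ix g) (Ix g) ℂ} (h : Simil lam M) (c : ℂ) :
    Simil (c ^ 2 * lam) (c • M) := by
  unfold Simil at *
  rw [Matrix.transpose_smul, Matrix.smul_mul, Matrix.smul_mul, Matrix.mul_smul, h, smul_smul,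
    smul_smul]
  congr 1
  ring

/-- The weight. -/
lemma weight {k : ℤ} {i : Fin n → Fin r} {α : (∀ s, Ix (g (i s))) → ℂ}
    (hF : FinVal k i α) (I' : ∀ s, Ix (g (i s))) (hne : α I' ≠ 0) : (n : ℤ) = 2 * k := by
  obtain ⟨P, hP, h⟩ := hF I'
  by_contra hk
  have hfin : {z : ℂ | Polynomial.aeval z P = 0}.Finite := by
    have hP' : P.map (algebraMap ℤ ℂ) ≠ 0 := by
      rw [Ne, Polynomial.map_eq_zero_iff (by simpa using Int.cast_injective)]
      exact hP
    refine (Finset.finite_toSet (P.map (algebraMap ℤ ℂ)).roots.toFinset).subset ?_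
    intro z hz
    rw [Finset.mem_coe, Multiset.mem_toFinset, Polynomial.mem_roots hP', Polynomial.IsRoot,
      Polynomial.eval_map_algebraMap]
    exact hz
  have hval : ∀ j : ℕ, Polynomial.aeval (((2 : ℂ) ^ (2 * k - n)) ^ j * α I') P = 0 := by
    intro j
    have h1 := h (((2 : ℂ) ^ j) ^ 2) (fun l => (2 : ℂ) ^ j • 1)
      (pow_ne_zero _ (pow_ne_zero _ two_ne_zero)) (fun l => by simpa using simil_smul (simil_one (g l)) ((2 : ℂ) ^ j))
    have h2 : (fun l : Fin r => ((2 : ℂ) ^ j • (1 : Matrix (Ix (g l)) (Ix (g l)) ℂ))⁻¹) =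
        fun l => ((2 : ℂ) ^ j)⁻¹ • (1 : Matrix (Ix (g l)) (Ix (g l)) ℂ) := by
      funext l
      apply Matrix.inv_eq_right_inv
      rw [Matrix.smul_mul, Matrix.mul_smul, one_mul, smul_smul,
        mul_inv_cancel₀ (pow_ne_zero _ two_ne_zero), one_smul]
    rw [h2, tact_smul, tact_one, Pi.smul_apply, smul_eq_mul, Finset.prod_const, Finset.card_univ,
      Fintype.card_fin] at h1
    convert h1 using 2
    rw [← mul_assoc]
    congr 1
    have h3 : (2 : ℂ) ^ j ≠ 0 := pow_ne_zero _ two_ne_zero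
    have h4 : ((2 : ℂ) ^ (2 * k - (n : ℤ))) ^ j = ((2 : ℂ) ^ j) ^ (2 * k - (n : ℤ)) := by
      rw [← zpow_natCast, ← zpow_mul, ← zpow_natCast, ← zpow_mul, mul_comm]
    rw [h4, zpow_sub₀ h3, zpow_mul, zpow_natCast, div_eq_mul_inv, inv_pow]
    rfl
  have hinj : Function.Injective (fun j : ℕ => ((2 : ℂ) ^ (2 * k - (n : ℤ))) ^ j * α I') := by
    intro a b hab
    have h1 := mul_right_cancel₀ hne hab
    have h2 := congrArg norm h1
    rw [norm_pow, norm_pow, norm_zpow] at h2
    have h3 : ‖(2 : ℂ)‖ = 2 := by simp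
    rw [h3] at h2
    have h4 : (0 : ℝ) < 2 ^ (2 * k - (n : ℤ)) := by positivity
    have h5 : (2 : ℝ) ^ (2 * k - (n : ℤ)) ≠ 1 := by
      intro h6
      have h7 := (zpow_eq_one_iff_right₀ (by norm_num : (0 : ℝ) ≤ 2) (by norm_num)).1 h6
      omega
    exact (pow_right_injective₀ h4 h5) h2
  exact Set.infinite_of_injective_forall_mem hinj hval hfin

theorem isHodge_of_finVal {k : ℤ} {i : Fin n → Fin r} {α : (∀ s, Ix (g (i s))) → ℂ}
    (hF : FinVal k i α) : IsHodge n k i α := by
  constructor
  · intro mu h hmu hh I'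
    change tact i h α I' = mu ^ k * α I'
    obtain ⟨c, hc⟩ : ∃ c : ℂ, c ^ 2 = mu := by
      obtain ⟨c, hc⟩ := IsAlgClosed.exists_pow_nat_eq mu (n := 2) (by norm_num)
      exact ⟨c, hc⟩
    have hc0 : c ≠ 0 := by
      rintro rfl
      apply hmu
      rw [← hc]; norm_num
    have h1 : ∀ l, Simil 1 (c⁻¹ • h l) := by
      intro l
      have := simil_smul (hh l) c⁻¹
      rwa [← hc, inv_pow, inv_mul_cancel₀ (pow_ne_zero 2 hc0)] at this
    have h2 := mem_stab.1 (sp_mem_stab hF (fun l => c⁻¹ • h l) h1)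
    have h3 : h = fun l => c • (c⁻¹ • h l) := by
      funext l
      rw [smul_smul, mul_inv_cancel₀ hc0, one_smul]
    rw [h3, tact_smul, h2, Pi.smul_apply, smul_eq_mul, Finset.prod_const, Finset.card_univ,
      Fintype.card_fin]
    by_cases h0 : α I' = 0
    · rw [h0, mul_zero, mul_zero]
    · have h4 := weight hF I' h0
      congr 1
      rw [← hc, ← zpow_natCast, ← zpow_natCast, ← zpow_mul]
      congr 1
  · intro I hI
    have h4 := weight hF I hI
    refine ⟨h4, ?_⟩
    set d : ∀ l : Fin r, Ix (g l) → ℂ := fun l => Sum.elim (fun _ => 2) (fun _ => 2⁻¹) with hd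
    have h1 : ∀ l, Simil 1 (Matrix.diagonal (d l)) := by
      intro l
      unfold Simil
      rw [Matrix.diagonal_transpose]
      ext a b
      rw [Matrix.mul_diagonal, Matrix.diagonal_mul, one_smul]
      rcases a with a | a <;> rcases b with b | b <;> simp [Matrix.J, hd, Matrix.one_apply]
    have h2 := congrFun (mem_stab.1 (sp_mem_stab hF _ h1)) I
    rw [tact_diag] at h2
    have h3 : ∏ s, d (i s) (I s) = 1 := by
      have := mul_left_cancel₀ hI (h2.trans (mul_one _).symm)
      exact this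
    set a := (Finset.univ.filter (fun s => (I s).isLeft)).card with ha
    set b := (Finset.univ.filter (fun s => ¬ (I s).isLeft)).card with hb
    have hab : a + b = n := by
      have := Finset.card_filter_add_card_filter_not (s := (Finset.univ : Finset (Fin n)))
        (fun s => (I s).isLeft = true)
      rw [Finset.card_univ, Fintype.card_fin] at this
      exact this
    have h5 : ∏ s, d (i s) (I s) = 2 ^ a * (2⁻¹) ^ b := by
      rw [← Finset.prod_filter_mul_prod_filter_not Finset.univ (fun s => (I s).isLeft = true)]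
      congr 1
      · rw [ha, ← Finset.prod_const]
        refine Finset.prod_congr rfl fun s hs => ?_
        rw [Finset.mem_filter] at hs
        rcases hI' : I s with u | u
        · simp [hd]
        · rw [hI'] at hs; simp at hs
      · rw [hb, ← Finset.prod_const]
        refine Finset.prod_congr rfl fun s hs => ?_
        rw [Finset.mem_filter] at hs
        rcases hI' : I s with u | u
        · rw [hI'] at hs; simp at hs
        · simp [hd]
    rw [h5, inv_pow, mul_inv_eq_one₀ (pow_ne_zero _ two_ne_zero)] at h3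
    have h6 : (2 : ℕ) ^ a = 2 ^ b := by exact_mod_cast h3
    have h7 := Nat.pow_right_injective le_rfl h6
    omega

end

end Pool.Agent.DRH
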