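import Pool.Agent.GPC.Sealed

/-!
# Specialization of some of the variables of an integral polynomial to small integers
-/

open scoped BigOperators

namespace Pool.Agent.DRH

open Pool.Agent.GPC (IsSmall)

lemma IsSmall.mono {σ : Type} {P : MvPolynomial σ ℤ} {D D' B B' : ℕ} (h : IsSmall P D B)
    (hD : D ≤ D') (hB : B ≤ B') : IsSmall P D' B' :=
  ⟨h.1.trans hD, fun m => (h.2 m).trans hB⟩

/-- Substitute the integers `c` for the variables in `τ`. -/
noncomputable def spec {σ τ : Type} (c : τ → ℤ) : MvPolynomial (σ ⊕ τ) ℤ →ₐ[ℤ] MvPolynomial σ ℤ :=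
  MvPolynomial.aeval (Sum.elim MvPolynomial.X (fun t => MvPolynomial.C (c t)))

lemma spec_small {σ τ : Type} (A : ℕ) (U : MvPolynomial (σ ⊕ τ) ℤ) : ∃ D1 A1 : ℕ,
    ∀ X : ℕ, 2 ≤ X → ∀ c : τ → ℤ, (∀ t, (c t).natAbs ≤ X ^ A) →
      IsSmall (spec c U) D1 (X ^ A1) := by
  induction U using MvPolynomial.induction_on with
  | C a =>
    refine ⟨0, a.natAbs, fun X hX c _ => ⟨?_, fun m => ?_⟩⟩
    · unfold spec
      rw [MvPolynomial.aeval_C, MvPolynomial.algebraMap_eq, MvPolynomial.totalDegree_C]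
    · unfold spec
      rw [MvPolynomial.aeval_C, MvPolynomial.algebraMap_eq]
      classical
      rw [MvPolynomial.coeff_C]
      have h1 : a.natAbs ≤ X ^ a.natAbs := (Nat.lt_two_pow_self).le.trans (Nat.pow_le_pow_left hX _)
      split_ifs
      · exact h1
      · simp
  | add p q hp hq =>
    obtain ⟨D1, A1, h1⟩ := hp
    obtain ⟨D2, A2, h2⟩ := hq
    refine ⟨max D1 D2, max A1 A2 + 1, fun X hX c hc => ⟨?_, fun m => ?_⟩⟩
    · rw [map_add]
      exact (MvPolynomial.totalDegree_add _ _).trans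
        (max_le_max (h1 X hX c hc).1 (h2 X hX c hc).1)
    · rw [map_add, MvPolynomial.coeff_add]
      have h3 := (h1 X hX c hc).2 m
      have h4 := (h2 X hX c hc).2 m
      have h5 : X ^ A1 ≤ X ^ (max A1 A2) := Nat.pow_le_pow_right (by omega) (le_max_left _ _)
      have h6 : X ^ A2 ≤ X ^ (max A1 A2) := Nat.pow_le_pow_right (by omega) (le_max_right _ _)
      have h7 := Int.natAbs_add_le (MvPolynomial.coeff m (spec c p)) (MvPolynomial.coeff m (spec c q))
      have h8 : X ^ (max A1 A2) * 2 ≤ X ^ (max A1 A2) * X := Nat.mul_le_mul_left _ hX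
      rw [pow_succ]
      omega
  | mul_X p v hp =>
    obtain ⟨D1, A1, h1⟩ := hp
    refine ⟨D1 + 1, A1 + A, fun X hX c hc => ?_⟩
    have h2 := h1 X hX c hc
    rw [map_mul]
    rcases v with s | t
    · have h3 : spec c (MvPolynomial.X (Sum.inl s)) = (MvPolynomial.X s : MvPolynomial σ ℤ) := by
        unfold spec
        rw [MvPolynomial.aeval_X, Sum.elim_inl]
      rw [h3]
      refine ⟨(MvPolynomial.totalDegree_mul _ _).trans ?_, fun m => ?_⟩
      · rw [MvPolynomial.totalDegree_X]
        exact Nat.add_le_add_right h2.1 _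
      · classical
        rw [MvPolynomial.coeff_mul_X']
        have h4 : X ^ A1 ≤ X ^ (A1 + A) := Nat.pow_le_pow_right (by omega) (by omega)
        split_ifs
        · exact (h2.2 _).trans h4
        · simp
    · have h3 : spec c (MvPolynomial.X (Sum.inr t)) = (MvPolynomial.C (c t) : MvPolynomial σ ℤ) := by
        unfold spec
        rw [MvPolynomial.aeval_X, Sum.elim_inr]
      rw [h3]
      refine ⟨(MvPolynomial.totalDegree_mul _ _).trans ?_, fun m => ?_⟩
      · rw [MvPolynomial.totalDegree_C]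
        exact Nat.add_le_add h2.1 (by omega)
      · rw [mul_comm, MvPolynomial.coeff_C_mul, Int.natAbs_mul, pow_add, mul_comm]
        exact Nat.mul_le_mul (h2.2 m) (hc t)

lemma aeval_spec {σ τ : Type} (c : τ → ℤ) (x : σ → ℂ) (U : MvPolynomial (σ ⊕ τ) ℤ) :
    MvPolynomial.aeval x (spec c U) =
      MvPolynomial.aeval (Sum.elim x (fun t => ((c t : ℤ) : ℂ))) U := by
  unfold spec
  rw [← AlgHom.comp_apply]
  congr 1
  apply MvPolynomial.algHom_ext
  intro v
  rw [AlgHom.comp_apply, MvPolynomial.aeval_X, MvPolynomial.aeval_X]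
  rcases v with s | t
  · simp
  · simp

end Pool.Agent.DRH
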