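import Pool.Agent.DRH.Act
import Pool.Agent.DRH.Spec
import Pool.Agent.HGP.Sealed

/-!
# The polynomial relation attached to a de Rham–Betti class
-/

open scoped BigOperators

namespace Pool.Agent.DRH

open Pool.Agent.HGP (Ix)
open Pool.Agent.GPC (IsSmall)

/-- The variables. -/
abbrev Vr {r : ℕ} (g : Fin r → ℕ) (m : ℕ) := Option (Σ i : Fin r, Ix (g i) × Fin m)

section

variable {r n m D : ℕ} {g : Fin r → ℕ} {R S : Type} [CommRing R] [CommRing S]

/-- The square matrices formed by the columns `p`. -/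
def sq (p : ∀ l, Ix (g l) → Fin m) (x : Vr g m → R) (l : Fin r) :
    Matrix (Ix (g l)) (Ix (g l)) R :=
  Matrix.of fun κ κ' => x (some ⟨l, κ, p l κ'⟩)

/-- The relation. -/
def full (D : ℕ) (p : ∀ l, Ix (g l) → Fin m) (i : Fin n → Fin r) (kp kn : ℕ)
    (I' : ∀ s, Ix (g (i s))) (x : Vr g m → R) (P : Fin (D + 1) → R)
    (b : (∀ s, Ix (g (i s))) → R) (q : R) : R :=
  ∑ j : Fin (D + 1), P j *
    ((x none ^ kp * tact i (fun l => (sq p x l).adjugate) b I') ^ (j : ℕ) *
      (q * x none ^ kn * ∏ s, (sq p x (i s)).det) ^ (D - (j : ℕ)))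

lemma map_full (φ : R →+* S) (p : ∀ l, Ix (g l) → Fin m) (i : Fin n → Fin r) (kp kn : ℕ)
    (I' : ∀ s, Ix (g (i s))) (x : Vr g m → R) (P : Fin (D + 1) → R)
    (b : (∀ s, Ix (g (i s))) → R) (q : R) :
    φ (full D p i kp kn I' x P b q) =
      full D p i kp kn I' (fun v => φ (x v)) (fun j => φ (P j)) (fun J => φ (b J)) (φ q) := by
  have hsq : ∀ l, (sq p x l).map φ = sq p (fun v => φ (x v)) l := fun l => rfl
  have hdet : ∀ l, φ (sq p x l).det = (sq p (fun v => φ (x v)) l).det := by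
    intro l
    rw [← hsq, RingHom.map_det]
    rfl
  have hadj : ∀ l, ((sq p x l).adjugate).map φ = (sq p (fun v => φ (x v)) l).adjugate := by
    intro l
    rw [← hsq]
    exact RingHom.map_adjugate φ (sq p x l)
  unfold full
  rw [map_sum]
  refine Finset.sum_congr rfl fun j _ => ?_
  simp only [map_mul, map_pow, map_prod, hdet, map_tact, hadj]

/-- The index type of the coefficients. -/
abbrev Cf (D : ℕ) (g : Fin r → ℕ) (i : Fin n → Fin r) :=
  Fin (D + 1) ⊕ ((∀ s, Ix (g (i s))) ⊕ Unit)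

/-- The universal relation. -/
noncomputable def univRel (D : ℕ) (p : ∀ l, Ix (g l) → Fin m) (i : Fin n → Fin r) (kp kn : ℕ)
    (I' : ∀ s, Ix (g (i s))) : MvPolynomial (Vr g m ⊕ Cf D g i) ℤ :=
  full D p i kp kn I' (fun v => MvPolynomial.X (Sum.inl v))
    (fun j => MvPolynomial.X (Sum.inr (Sum.inl j)))
    (fun J => MvPolynomial.X (Sum.inr (Sum.inr (Sum.inl J))))
    (MvPolynomial.X (Sum.inr (Sum.inr (Sum.inr ()))))

lemma aeval_univRel (p : ∀ l, Ix (g l) → Fin m) (i : Fin n → Fin r) (kp kn : ℕ)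
    (I' : ∀ s, Ix (g (i s))) (x : Vr g m → ℂ) (c : Cf D g i → ℤ) :
    MvPolynomial.aeval x (spec c (univRel D p i kp kn I')) =
      full D p i kp kn I' x (fun j => ((c (Sum.inl j) : ℤ) : ℂ))
        (fun J => ((c (Sum.inr (Sum.inl J)) : ℤ) : ℂ)) ((c (Sum.inr (Sum.inr ())) : ℤ) : ℂ) := by
  rw [aeval_spec]
  unfold univRel
  have h := map_full (D := D) (MvPolynomial.aeval (R := ℤ)
    (Sum.elim x (fun t => ((c t : ℤ) : ℂ)))).toRingHom p i kp kn I'
    (fun v => MvPolynomial.X (Sum.inl v))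
    (fun j => MvPolynomial.X (Sum.inr (Sum.inl j)))
    (fun J => MvPolynomial.X (Sum.inr (Sum.inr (Sum.inl J))))
    (MvPolynomial.X (Sum.inr (Sum.inr (Sum.inr ()))))
  refine h.trans ?_
  congr 1
  · funext v; simp
  · funext v; simp
  · funext v; simp
  · simp

end

/-- The value of the relation. -/
lemma full_eq {r n m D : ℕ} {g : Fin r → ℕ} (p : ∀ l, Ix (g l) → Fin m) (i : Fin n → Fin r)
    (kp kn : ℕ) (I' : ∀ s, Ix (g (i s))) (x : Vr g m → ℂ) (hx : x none ≠ 0)
    (α : (∀ s, Ix (g (i s))) → ℂ) (b b' : (∀ s, Ix (g (i s))) → ℂ) (q : ℂ)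
    (hα : ∀ J, tact i (sq p x) α J = x none ^ ((kp : ℤ) - kn) * b J)
    (hb : ∀ J, b' J = q * b J) (P : Polynomial ℤ) (hP : P.natDegree ≤ D) :
    full D p i kp kn I' x (fun j => ((P.coeff j : ℤ) : ℂ)) b' q =
      (q * x none ^ kn * ∏ s, (sq p x (i s)).det) ^ D * Polynomial.aeval (α I') P := by
  set U := q * x none ^ kn * ∏ s, (sq p x (i s)).det with hU
  have h1 : x none ^ kp * tact i (fun l => (sq p x l).adjugate) b' I' = α I' * U := by
    have h2 : b' = (q * x none ^ ((kn : ℤ) - kp)) • tact i (sq p x) α := by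
      funext J
      rw [Pi.smul_apply, smul_eq_mul, hα, hb]
      have h3 : x none ^ ((kn : ℤ) - kp) * x none ^ ((kp : ℤ) - kn) = 1 := by
        rw [← zpow_add₀ hx]
        simp
      linear_combination (-q * b J) * h3
    rw [h2, tact_smul_right, tact_adj, Pi.smul_apply, Pi.smul_apply, smul_eq_mul, smul_eq_mul, hU]
    have h4 : x none ^ kp * x none ^ ((kn : ℤ) - kp) = x none ^ kn := by
      rw [← zpow_natCast, ← zpow_add₀ hx, ← zpow_natCast]
      congr 1
      ring
    linear_combination (q * (∏ s, (sq p x (i s)).det) * α I') * h4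
  unfold full
  rw [h1, ← hU, Polynomial.aeval_eq_sum_range' (Nat.lt_succ_of_le hP), Finset.mul_sum,
    Finset.sum_range]
  refine Finset.sum_congr rfl fun j _ => ?_
  have h5 : U ^ D = U ^ (j : ℕ) * U ^ (D - (j : ℕ)) := by
    rw [← pow_add]; congr 1; omega
  rw [mul_pow, h5, zsmul_eq_mul]
  ring

end Pool.Agent.DRH
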