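import Pool.Agent.DRH.Const
import Pool.Agent.DRH.Rel
import Pool.Agent.GPC.MINOR

/-!
# De Rham–Betti classes of bounded complexity on hyperelliptic curves are Hodge classes
-/

open scoped BigOperators Topology
open Filter

namespace Pool.Agent.DRH

open Pool.Agent.HGP (Ix Simil)
open Pool.Agent.GPH (CPath pol perMat num tpt box)
open Pool.Agent.GPC (IsSmall)

noncomputable section

/-- The number of closed paths. -/
def mm {r : ℕ} (g : Fin r → ℕ) : ℕ := ∑ l, 2 * g l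

lemma le_mm {r : ℕ} (g : Fin r → ℕ) (l : Fin r) : 2 * g l ≤ mm g :=
  Finset.single_le_sum (f := fun l => 2 * g l) (fun _ _ => Nat.zero_le _) (Finset.mem_univ l)

/-- The enumeration of the columns. -/
def ee (g : ℕ) : Ix g ≃ Fin (2 * g) := Fintype.equivFinOfCardEq (by
  rw [Fintype.card_sum, Fintype.card_fin]; ring)

/-- The choice of the columns. -/
def pp {r : ℕ} (g : Fin r → ℕ) (l : Fin r) (κ : Ix (g l)) : Fin (mm g) :=
  Fin.castLE (le_mm g l) (ee (g l) κ)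

/-- Extension of the families of paths. -/
def ext {r : ℕ} {g : Fin r → ℕ} (hg : ∀ l, 0 < g l) {f : Fin r → Polynomial ℂ}
    (γ : ∀ l, Fin (2 * g l) → CPath (f l)) (l : Fin r) (j : Fin (mm g)) : CPath (f l) :=
  if h : (j : ℕ) < 2 * g l then γ l ⟨j, h⟩ else γ l ⟨0, by have := hg l; omega⟩

lemma ext_pp {r : ℕ} {g : Fin r → ℕ} (hg : ∀ l, 0 < g l) {f : Fin r → Polynomial ℂ}
    (γ : ∀ l, Fin (2 * g l) → CPath (f l)) (l : Fin r) (κ : Ix (g l)) :
    ext hg γ l (pp g l κ) = γ l (ee (g l) κ) := by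
  unfold ext pp
  rw [dif_pos (by simp)]
  rfl

lemma ext_mem {r : ℕ} {g : Fin r → ℕ} (hg : ∀ l, 0 < g l) {f : Fin r → Polynomial ℂ}
    (γ : ∀ l, Fin (2 * g l) → CPath (f l)) (l : Fin r) (j : Fin (mm g)) :
    ∃ j', ext hg γ l j = γ l j' := by
  unfold ext
  split_ifs with h
  · exact ⟨_, rfl⟩
  · exact ⟨_, rfl⟩

lemma det_ne_of_simil {g : ℕ} {mu : ℂ} {h : Matrix (Ix g) (Ix g) ℂ} (hmu : mu ≠ 0)
    (hh : Simil mu h) : h.det ≠ 0 := by
  intro h0
  have h1 := congrArg Matrix.det hh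
  rw [Matrix.det_mul, Matrix.det_mul, h0, mul_zero, Matrix.det_smul] at h1
  have h2 : (Matrix.J (Fin g) ℂ).det ≠ 0 := (Matrix.isUnit_det_J (Fin g) ℂ).ne_zero
  exact mul_ne_zero (pow_ne_zero _ hmu) h2 h1.symm

lemma two_pi_I_ne : (2 * (Real.pi : ℂ) * Complex.I) ≠ 0 := Complex.two_pi_I_ne_zero

lemma prod_den_dvd {J : Type} [Fintype J] (b : J → ℚ) (j : J) :
    ∃ z : ℤ, (z : ℚ) = (∏ x, (b x).den : ℕ) * b j ∧
      z.natAbs ≤ (b j).num.natAbs * ∏ x, (b x).den := by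
  classical
  obtain ⟨w, hw⟩ := Finset.dvd_prod_of_mem (fun x => (b x).den) (Finset.mem_univ j)
  refine ⟨(b j).num * w, ?_, ?_⟩
  · rw [hw]
    push_cast
    have h := Rat.mul_den_eq_num (b j)
    linear_combination (-(w : ℚ)) * h
  · rw [Int.natAbs_mul, Int.natAbs_natCast]
    apply Nat.mul_le_mul_left
    apply Nat.le_of_dvd
    · exact Finset.prod_pos fun x _ => (b x).den_pos
    · rw [hw]; exact Dvd.intro_left _ rfl

theorem key {r : ℕ} (g : Fin r → ℕ) (hg : ∀ l, 0 < g l) (D A n : ℕ) (k : ℤ)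
    (i : Fin n → Fin r) :
    ∃ D1 A1 : ℕ, ∀ X : ℕ, 2 ≤ X → ∀ c : ∀ i, Fin (2 * g i + 1) → ℤ,
      ¬ GPH.Bad (mm g) D1 (X ^ A1) (X ^ A) c → ∀ α : (∀ s, Ix (g (i s))) → ℂ,
        IsDRB c D (X ^ A) n k i α → IsHodge n k i α := by
  classical
  set N := Fintype.card (∀ s, Ix (g (i s))) with hN
  choose D1 A1 hsmall using fun I' : (∀ s, Ix (g (i s))) =>
    spec_small (A * (N + 1)) (univRel D (pp g) i k.toNat (-k).toNat I')
  refine ⟨Finset.univ.sup D1, Finset.univ.sup A1, ?_⟩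
  rintro X hX c hbad α ⟨halg, γ₀, hper, hlin, hb⟩
  apply isHodge_of_finVal
  have hX1 : 1 ≤ X := by omega
  set γ : ∀ l, Fin (mm g) → CPath (crv c l) := ext hg γ₀ with hγ
  have hsub : ∀ l, (perMat (g l) (γ l)).submatrix id (pp g l) =
      (perMat (g l) (γ₀ l)).submatrix id (ee (g l)) := by
    intro l
    ext κ κ'
    change (ext hg γ₀ l (pp g l κ')).per _ = (γ₀ l (ee (g l) κ')).per _
    rw [ext_pp]
  have hp : ∀ l, ((perMat (g l) (γ l)).submatrix id (pp g l)).det ≠ 0 := by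
    intro l
    rw [hsub]
    have h1 : LinearIndependent ℂ ((perMat (g l) (γ₀ l)).submatrix id (ee (g l))).row := by
      have h2 := (hlin l).map' (LinearEquiv.funCongrLeft ℂ ℂ (ee (g l))).toLinearMap
        (LinearEquiv.ker _)
      exact h2
    have h3 := Matrix.linearIndependent_rows_iff_isUnit.1 h1
    rw [Matrix.isUnit_iff_isUnit_det] at h3
    exact h3.ne_zero
  have hper' : ∀ l j κ, ‖(γ l j).per (num (g l) (crv c l) κ)‖ ≤ ((X ^ A : ℕ) : ℝ) := by
    intro l j κ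
    obtain ⟨j', hj'⟩ := ext_mem hg γ₀ l j
    rw [hγ, hj']
    exact hper l j' κ
  choose b hb1 hb2 hb3 using fun J : (∀ s, Ix (g (i s))) => hb (fun s => ee (g (i s)) (J s))
  set q : ℕ := ∏ J, (b J).den with hq
  have hq0 : 0 < q := Finset.prod_pos fun x _ => (b x).den_pos
  have hqle : q ≤ X ^ (A * N) := by
    calc q ≤ ∏ _J : (∀ s, Ix (g (i s))), X ^ A := Finset.prod_le_prod' fun J _ => hb2 J
      _ = X ^ (A * N) := by rw [Finset.prod_const, Finset.card_univ, ← hN, ← pow_mul]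
  choose b' hb'1 hb'2 using prod_den_dvd b
  have hbound : ∀ e : ℕ, e ≤ A * (N + 1) → X ^ e ≤ X ^ (A * (N + 1)) := fun e he =>
    Nat.pow_le_pow_right hX1 he
  set p := pp g with hpp
  set x : Vr g (mm g) → ℂ := tpt (2 * Real.pi * Complex.I) (fun l => perMat (g l) (γ l)) with hx
  have hsq : ∀ l, sq p x l = (perMat (g l) (γ l)).submatrix id (p l) := fun l => rfl
  have hk : ((k.toNat : ℕ) : ℤ) - ((-k).toNat : ℕ) = k := by omega
  have hα : ∀ J, tact i (sq p x) α J =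
      x none ^ (((k.toNat : ℕ) : ℤ) - ((-k).toNat : ℕ)) * ((b J : ℚ) : ℂ) := by
    intro J
    rw [hk]
    refine Eq.trans ?_ (hb3 J)
    unfold tact
    refine Finset.sum_congr rfl fun I _ => ?_
    congr 1
    refine Finset.prod_congr rfl fun s _ => ?_
    rw [hsq, hsub]
    rfl
  have hb'C : ∀ J, ((b' J : ℤ) : ℂ) = (q : ℂ) * ((b J : ℚ) : ℂ) := by
    intro J
    have := hb'1 J
    rw [← hq] at this
    exact_mod_cast congrArg (fun z : ℚ => (z : ℂ)) this
  intro I'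
  obtain ⟨P, hP0, hPD, hPB, hPα⟩ := halg I'
  refine ⟨P, hP0, ?_⟩
  set cf : Cf D g i → ℤ := Sum.elim (fun j => P.coeff j) (Sum.elim b' (fun _ => (q : ℤ))) with hcf
  have hcfle : ∀ t, (cf t).natAbs ≤ X ^ (A * (N + 1)) := by
    rintro (j | J | u)
    · exact (hPB j).trans (hbound _ (by nlinarith))
    · refine (hb'2 J).trans ?_
      calc (b J).num.natAbs * ∏ x, (b x).den ≤ X ^ A * X ^ (A * N) :=
            Nat.mul_le_mul (hb1 J) hqle
        _ = X ^ (A * (N + 1)) := by rw [← pow_add]; congr 1; ring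
    · change ((q : ℤ)).natAbs ≤ _
      rw [Int.natAbs_natCast]
      exact hqle.trans (hbound _ (by nlinarith))
  set F := spec cf (univRel D p i k.toNat (-k).toNat I') with hF
  have hFs : IsSmall F (Finset.univ.sup D1) (X ^ Finset.univ.sup A1) :=
    IsSmall.mono (hsmall I' X hX cf hcfle) (Finset.le_sup (f := D1) (Finset.mem_univ _))
      (Nat.pow_le_pow_right hX1 (Finset.le_sup (f := A1) (Finset.mem_univ _)))
  have hF0 : MvPolynomial.aeval x F = 0 := by
    rw [hF, aeval_univRel]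
    have h1 := full_eq (D := D) p i k.toNat (-k).toNat I' x two_pi_I_ne α (fun J => ((b J : ℚ) : ℂ))
      (fun J => ((b' J : ℤ) : ℂ)) (q : ℂ) hα hb'C P hPD
    have h2 : (((cf (Sum.inr (Sum.inr ())) : ℤ)) : ℂ) = (q : ℂ) := by simp [hcf]
    rw [h2]
    refine h1.trans ?_
    rw [hPα, mul_zero]
  intro mu h hmu hh
  set x' : Vr g (mm g) → ℂ := tpt (mu * (2 * Real.pi * Complex.I))
    (fun l => h l * perMat (g l) (γ l)) with hx'
  have hF' : MvPolynomial.aeval x' F = 0 := by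
    by_contra hne
    exact hbad ⟨γ, hper', F, hFs, hF0, mu, h, hmu, hh, hne⟩
  have hdet : ∀ l, (h l).det ≠ 0 := fun l => det_ne_of_simil hmu (hh l)
  have hsq' : ∀ l, sq p x' l = h l * sq p x l := by
    intro l
    ext κ κ'
    rfl
  set α' : (∀ s, Ix (g (i s))) → ℂ := mu ^ k • tact i (fun l => (h l)⁻¹) α with hα'def
  have hx'0 : x' none = mu * (2 * Real.pi * Complex.I) := rfl
  have hx0 : x none = 2 * Real.pi * Complex.I := rfl
  have hα' : ∀ J, tact i (sq p x') α' J =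
      x' none ^ (((k.toNat : ℕ) : ℤ) - ((-k).toNat : ℕ)) * ((b J : ℚ) : ℂ) := by
    intro J
    have h1 : (fun l => (h l)⁻¹ * sq p x' l) = sq p x := by
      funext l
      rw [hsq', ← Matrix.mul_assoc, Matrix.nonsing_inv_mul _ (isUnit_iff_ne_zero.2 (hdet l)),
        Matrix.one_mul]
    have h2 := tact_tact (ι := fun l => Ix (g l)) (κ := fun l => Ix (g l))
      (τ := fun l => Ix (g l)) i (fun l => (h l)⁻¹) (sq p x') α
    rw [hα'def, tact_smul_right, h2, h1, Pi.smul_apply, smul_eq_mul, hα, hk, hx'0, hx0,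
      mul_zpow mu]
    ring
  have h3 := full_eq (D := D) p i k.toNat (-k).toNat I' x'
    (by rw [hx'0]; exact mul_ne_zero hmu two_pi_I_ne) α' (fun J => ((b J : ℚ) : ℂ))
      (fun J => ((b' J : ℤ) : ℂ)) (q : ℂ) hα' hb'C P hPD
  rw [hF, aeval_univRel] at hF'
  have h2 : (((cf (Sum.inr (Sum.inr ())) : ℤ)) : ℂ) = (q : ℂ) := by simp [hcf]
  rw [h2] at hF'
  have h4 := h3.symm.trans hF'
  rcases mul_eq_zero.1 h4 with h5 | h5
  · exfalso
    have h6 : (q : ℂ) * x' none ^ (-k).toNat * ∏ s, (sq p x' (i s)).det ≠ 0 := by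
      refine mul_ne_zero (mul_ne_zero (by exact_mod_cast hq0.ne') (pow_ne_zero _ ?_)) ?_
      · rw [hx'0]; exact mul_ne_zero hmu two_pi_I_ne
      · rw [Finset.prod_ne_zero_iff]
        intro s _
        rw [hsq', Matrix.det_mul]
        exact mul_ne_zero (hdet _) (hp _)
    exact pow_ne_zero _ h6 h5
  · exact h5

/-- The density statement for relations between periods. -/
def Dens (r : ℕ) (g : Fin r → ℕ)
    (Q : ℕ → (∀ i, Fin (2 * g i + 1) → ℤ) → Prop) : Prop :=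
  Tendsto (fun X : ℕ =>
    (Nat.card {c : ∀ i, Fin (2 * g i + 1) → ℤ // (∀ i, c i ∈ box (g i) X) ∧ Q X c} : ℝ) /
      ∏ i, ((box (g i) X).card : ℝ)) atTop (𝓝 0)

lemma dens_mono {r : ℕ} {g : Fin r → ℕ} {Q Q' : ℕ → (∀ i, Fin (2 * g i + 1) → ℤ) → Prop}
    (h : ∀ X, 2 ≤ X → ∀ c, Q' X c → Q X c) (hQ : Dens r g Q) : Dens r g Q' := by
  refine tendsto_of_tendsto_of_tendsto_of_le_of_le' tendsto_const_nhds hQ
    (Eventually.of_forall fun X => by positivity) ?_
  filter_upwards [eventually_ge_atTop 2] with X hX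
  apply div_le_div_of_nonneg_right _ (by positivity)
  have hfin : Finite {c : ∀ i, Fin (2 * g i + 1) → ℤ // (∀ i, c i ∈ box (g i) X) ∧ Q X c} := by
    have h1 : Set.Finite {c : ∀ i, Fin (2 * g i + 1) → ℤ | ∀ i, c i ∈ box (g i) X} := by
      have h2 := Set.Finite.pi' (fun i : Fin r => (box (g i) X).finite_toSet)
      refine h2.subset ?_
      intro c hc
      rw [Set.mem_ofPred_eq] at hc ⊢
      exact hc
    have h3 : Finite {c : ∀ i, Fin (2 * g i + 1) → ℤ // ∀ i, c i ∈ box (g i) X} := h1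
    exact Finite.of_injective (fun c => (⟨c.1, c.2.1⟩ :
      {c : ∀ i, Fin (2 * g i + 1) → ℤ // ∀ i, c i ∈ box (g i) X}))
      (fun a b hab => by
        have h9 := congrArg Subtype.val hab
        exact Subtype.ext h9)
  exact_mod_cast Nat.card_le_card_of_injective
    (fun c : {c : ∀ i, Fin (2 * g i + 1) → ℤ // (∀ i, c i ∈ box (g i) X) ∧ Q' X c} =>
      (⟨c.1, c.2.1, h X hX _ c.2.2⟩ :
        {c : ∀ i, Fin (2 * g i + 1) → ℤ // (∀ i, c i ∈ box (g i) X) ∧ Q X c}))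
    (fun a b hab => by
        have h9 := congrArg Subtype.val hab
        exact Subtype.ext h9)

lemma bad_mono {r : ℕ} {g : Fin r → ℕ} {m D D' B B' B'' : ℕ} (hD : D ≤ D') (hB : B ≤ B')
    {c : ∀ i, Fin (2 * g i + 1) → ℤ} (h : GPH.Bad m D B B'' c) : GPH.Bad m D' B' B'' c := by
  obtain ⟨γ, h1, P, h2, h3⟩ := h
  exact ⟨γ, h1, P, IsSmall.mono h2 hD hB, h3⟩

theorem final (r : ℕ) (g : Fin r → ℕ) (hg : ∀ l, 0 < g l)
    (hG : ∀ m D A B : ℕ, Dens r g (fun X c => GPH.Bad m D (X ^ A) (X ^ B) c)) (D A : ℕ) :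
    Dens r g (fun X c => BadDRB D (X ^ A) c) := by
  classical
  choose D1 A1 h using fun t : (Σ n : Fin (D + 1), (Finset.Icc (-(D : ℤ)) D) ×
    (Fin n → Fin r)) => key g hg D A t.1 t.2.1 t.2.2
  refine dens_mono (fun X hX c hc => ?_) (hG (mm g) (Finset.univ.sup D1) (Finset.univ.sup A1) A)
  obtain ⟨n, k, i, α, hn, hk, hα, hnot⟩ := hc
  by_contra hb
  have hk' : k ∈ Finset.Icc (-(D : ℤ)) D := by
    rw [Finset.mem_Icc]
    exact abs_le.1 hk
  apply hnot
  refine h ⟨⟨n, by omega⟩, ⟨k, hk'⟩, i⟩ X hX c (fun h' => hb ?_) α hα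
  exact bad_mono (Finset.le_sup (f := D1) (Finset.mem_univ _))
    (Nat.pow_le_pow_right (by omega) (Finset.le_sup (f := A1) (Finset.mem_univ _))) h'

end

end Pool.Agent.DRH
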