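import Pool.Agent.GPH.Main
import Pool.Agent.DRH.Main

/-!
# De Rham–Betti classes of bounded complexity on products of hyperelliptic curves

The curves are `C_l : y ^ 2 = x ^ (2 g_l + 1) + a_2 x ^ (2 g_l - 1) + ... + a_(2 g_l + 1)`, `a_k`
integers with `|a_k| ≤ X ^ k`. For all `r`, `g_1, ..., g_r`, `D`, `A`: for 100 percent of the
`r`-tuples of such curves, every de Rham–Betti class over the field of algebraic numbers on every
space `H¹(C_{i_1}) ⊗ ⋯ ⊗ H¹(C_{i_n}) (k)` with `n, |k| ≤ D` whose de Rham coordinates are algebraic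
of degree at most `D` and height at most `X ^ A`, and whose Betti coordinates (in some basis of
the homology with periods at most `X ^ A`) are rational of height at most `X ^ A`, is invariant
under all tuples of symplectic similitudes, hence fixed by the motivic Galois group, and is of
Hodge type `(0, 0)`.
-/

open scoped BigOperators

open Pool.Agent.GPH in
theorem Pool.Agent.DRH.hyperellipticDRB (r : ℕ) (g : Fin r → ℕ)
    (hg : ∀ l, 0 < g l) (D A : ℕ) :
    Filter.Tendsto (fun X : ℕ =>
      (Nat.card {c : ∀ l, Fin (2 * g l + 1) → ℤ // (∀ l, c l ∈ box (g l) X) ∧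
        Pool.Agent.DRH.BadDRB D (X ^ A) c} : ℝ) / ∏ l, ((box (g l) X).card : ℝ))
      Filter.atTop (nhds 0) :=
  Pool.Agent.DRH.final r g hg (fun m D A B => Main.finalZ r g hg m D A B) D A
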